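import Pool.Agent.H29.ENR.Stmts

/-!
Row CHG: `y` may be replaced by `y * t`, `t ∈ S`.
-/

set_option autoImplicit false

namespace Pool.ENR

theorem chg99_mul {G : Type} [Group G] {S : Subgroup G} {a b : G}
    (ha : ∀ x, x ∈ S ↔ a * x * a⁻¹ ∈ S) (hb : ∀ x, x ∈ S ↔ b * x * b⁻¹ ∈ S) :
    ∀ x, x ∈ S ↔ (a * b) * x * (a * b)⁻¹ ∈ S := by
  intro x
  rw [hb x, ha (b * x * b⁻¹)]
  have : a * (b * x * b⁻¹) * a⁻¹ = (a * b) * x * (a * b)⁻¹ := by group
  rw [this]

theorem chg99_inv {G : Type} [Group G] {S : Subgroup G} {a : G}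
    (ha : ∀ x, x ∈ S ↔ a * x * a⁻¹ ∈ S) : ∀ x, x ∈ S ↔ a⁻¹ * x * (a⁻¹)⁻¹ ∈ S := by
  intro x
  rw [ha (a⁻¹ * x * (a⁻¹)⁻¹)]
  have : a * (a⁻¹ * x * (a⁻¹)⁻¹) * a⁻¹ = x := by group
  rw [this]

theorem chg99_mem {G : Type} [Group G] {S : Subgroup G} {t : G} (ht : t ∈ S) :
    ∀ x, x ∈ S ↔ t * x * t⁻¹ ∈ S := by
  intro x
  constructor
  · intro hx
    exact S.mul_mem (S.mul_mem ht hx) (S.inv_mem ht)
  · intro hx
    have h1 : t⁻¹ * (t * x * t⁻¹) * t ∈ S := S.mul_mem (S.mul_mem (S.inv_mem ht) hx) ht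
    have h2 : t⁻¹ * (t * x * t⁻¹) * t = x := by group
    rwa [h2] at h1

theorem chg99_com {G : Type} [Group G] {S : Subgroup G} {c : G}
    (hc : ∀ x ∈ S, c * x = x * c) : ∀ x, x ∈ S ↔ c * x * c⁻¹ ∈ S := by
  intro x
  constructor
  · intro hx
    rw [hc x hx, mul_inv_cancel_right]
    exact hx
  · intro hx
    have h1 := hc _ hx
    have h2 : c * x * c⁻¹ = x := by
      have h3 : c * (c * x * c⁻¹) * c⁻¹ = c * x * c⁻¹ := by
        rw [h1, mul_inv_cancel_right]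
      have h4 : c * (c * x * c⁻¹) = c * x := by
        calc c * (c * x * c⁻¹) = (c * x * c⁻¹) * c := h1
          _ = c * x := by rw [inv_mul_cancel_right]
      exact mul_left_cancel h4
    rw [h2] at hx
    exact hx

theorem chg_thm : CHGStmt := by
  intro G _ y t S k hk hD ht hN hno
  -- the conjugates of `t` commute with `S`
  have hw : ∀ i, 0 < i → i < k → ∀ x ∈ S, ((y ^ i)⁻¹ * t * y ^ i) * x = x * ((y ^ i)⁻¹ * t * y ^ i) := by
    intro i hi hik x hx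
    rcases hD ((y ^ i)⁻¹) with h | h
    · exfalso
      apply hno i hi hik
      have h1 := chg99_inv h
      rw [inv_inv] at h1
      exact h1
    · have h1 := h t ht x hx
      rw [inv_inv] at h1
      exact h1
  have key : ∀ i, 1 ≤ i → i ≤ k → ∃ c : G, (∀ x ∈ S, c * x = x * c) ∧ (y * t) ^ i = y ^ i * c * t := by
    intro i hi
    induction i, hi using Nat.le_induction with
    | base =>
      intro _
      exact ⟨1, fun x _ => by rw [one_mul, mul_one], by rw [pow_one, pow_one, mul_one]⟩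
    | succ i hi ih =>
      intro hik
      obtain ⟨c, hc, he⟩ := ih (by omega)
      refine ⟨((y ^ i)⁻¹ * t * y ^ i) * c, fun x hx => ?_, ?_⟩
      · rw [mul_assoc, hc x hx, ← mul_assoc, hw i (by omega) (by omega) x hx, mul_assoc]
      · rw [pow_succ' (y * t), he, pow_succ' y]
        group
  have hnorm : ∀ c : G, (∀ x ∈ S, c * x = x * c) → ∀ i,
      ((∀ x, x ∈ S ↔ y ^ i * x * (y ^ i)⁻¹ ∈ S) ↔
        (∀ x, x ∈ S ↔ (y ^ i * c * t) * x * (y ^ i * c * t)⁻¹ ∈ S)) := by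
    intro c hc i
    constructor
    · intro h
      exact chg99_mul (chg99_mul h (chg99_com hc)) (chg99_mem ht)
    · intro h
      have h1 := chg99_mul (chg99_mul h (chg99_inv (chg99_mem ht))) (chg99_inv (chg99_com hc))
      have h2 : y ^ i * c * t * t⁻¹ * c⁻¹ = y ^ i := by group
      rw [h2] at h1
      exact h1
  refine ⟨?_, ?_, ?_⟩
  · obtain ⟨c, hc, he⟩ := key k hk le_rfl
    rw [he]
    exact (hnorm c hc k).1 hN
  · intro i hi hik
    obtain ⟨c, hc, he⟩ := key i hi hik.le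
    rw [he]
    intro h
    exact hno i hi hik ((hnorm c hc i).2 h)
  · intro x hx
    obtain ⟨c, hc, he⟩ := key k hk le_rfl
    rw [he]
    have hz : (y ^ k)⁻¹ * x * y ^ k ∈ S := by
      have h1 := (chg99_inv hN x).1 hx
      rwa [inv_inv] at h1
    have h2 : c⁻¹ * ((y ^ k)⁻¹ * x * y ^ k) * c = (y ^ k)⁻¹ * x * y ^ k := by
      rw [mul_assoc, ← hc _ hz, inv_mul_cancel_left]
    calc (y ^ k * c * t)⁻¹ * x * (y ^ k * c * t)
        = t⁻¹ * (c⁻¹ * ((y ^ k)⁻¹ * x * y ^ k) * c) * t := by group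
      _ = t⁻¹ * ((y ^ k)⁻¹ * x * y ^ k) * t := by rw [h2]

end Pool.ENR
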